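import Pool.Agent.H68.GHY.Targets

/-!
# CRD: the size of an orthonormal family (board ghy)
-/

namespace Pool.Agent.H37.GHY

open MeasureTheory Pool.Agent.H34.GM Pool.Agent.H34.GZ Pool.Agent.H34.GU Pool.Agent.H34.GA
open Pool.Agent.H68.GHY

/-- an orthonormal family consists of functions which are not identically zero -/
theorem nz_of {m N : ℕ} [NeZero N] (hm1 : 1 ≤ m) {D : Set (V m)} (hD : DomZ m D)
    {F : Mat m → VN m N → ℂ}
    (h : ∑ x : VN m N, ∫ z in D, F (mt z) x * (starRingEnd ℂ) (F (mt z) x) ∂(hm m) = 1) :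
    ∃ g x, g.det ≠ 0 ∧ F g x ≠ 0 := by
  by_contra hcon
  push Not at hcon
  have h0 : ∀ x : VN m N,
      ∫ z in D, F (mt z) x * (starRingEnd ℂ) (F (mt z) x) ∂(hm m) = 0 := by
    intro x
    refine setIntegral_eq_zero_of_forall_eq_zero ?_
    intro z hz
    have hdet : (mt z).det ≠ 0 := by
      intro h0
      have h1 := (hD.shell z hz).1
      unfold aN at h1
      rw [h0, abs_zero, Real.zero_rpow (by positivity)] at h1
      linarith
    rw [hcon _ x hdet, zero_mul]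
  rw [Finset.sum_congr rfl fun x _ => h0 x, Finset.sum_const_zero] at h
  exact zero_ne_one h

/-- the first eigenvalue -/
theorem lam_one {m N : ℕ} [NeZero N] {T : ℕ → Finset (ZM m)} (hT : RepsZ m T)
    {F : Mat m → VN m N → ℂ} {lam : ℕ → ℂ} (hF : HecA m N T F lam) {g : Mat m} {x : VN m N}
    (hg : g.det ≠ 0) (hx : F g x ≠ 0) : lam 1 = 1 := by
  have hu : ∀ α ∈ T 1, IsUnit α := by
    intro α hα
    have h1 := hT.mem 1 le_rfl α hα
    rw [Matrix.isUnit_iff_isUnit_det]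
    exact Int.isUnit_iff_natAbs_eq.2 h1
  obtain ⟨α, ⟨hα, -⟩, huniq⟩ := hT.uniq 1 le_rfl 1 (by simp)
  have hall : ∀ β ∈ T 1, β = α := by
    intro β hβ
    refine huniq β ⟨hβ, ?_⟩
    obtain ⟨u, hu'⟩ := hu β hβ
    refine ⟨((u⁻¹ : (ZM m)ˣ) : ZM m), u⁻¹.isUnit, ?_⟩
    rw [← hu']
    simp
  have hT1 : T 1 = {α} := by
    ext β
    rw [Finset.mem_singleton]
    exact ⟨fun h => hall β h, fun h => h ▸ hα⟩
  have h2 := hF.hecke 1 le_rfl g x hg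
  rw [hT1, Finset.sum_singleton, hF.auto α (hu α hα) g x hg, Nat.cast_one, Complex.one_cpow,
    one_mul] at h2
  have h3 : (lam 1 - 1) * F g x = 0 := by
    rw [sub_mul, one_mul, ← h2, sub_self]
  rcases mul_eq_zero.1 h3 with h4 | h4
  · exact sub_eq_zero.1 h4
  · exact absurd h4 hx

/-- powers of the logarithm -/
theorem log_pow_le (K : ℕ) {ε : ℝ} (hε : 0 < ε) : ∃ C : ℝ, 0 < C ∧ ∀ z : ℝ, 1 ≤ z →
    (1 + Real.log z) ^ K ≤ C * z ^ ε := by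
  rcases Nat.eq_zero_or_pos K with rfl | hK
  · exact ⟨1, one_pos, fun z hz => by
      rw [pow_zero, one_mul]
      exact Real.one_le_rpow hz hε.le⟩
  have hK' : (0 : ℝ) < K := by exact_mod_cast hK
  have hd : 0 < ε / K := div_pos hε hK'
  refine ⟨(1 + (ε / K)⁻¹) ^ K, by positivity, fun z hz => ?_⟩
  have hz0 : 0 < z := by linarith
  have h1 : Real.log z ≤ z ^ (ε / K) / (ε / K) := Real.log_le_rpow_div hz0.le hd
  have h2 : (1 : ℝ) ≤ z ^ (ε / K) := Real.one_le_rpow hz hd.le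
  have h3 : 1 + Real.log z ≤ (1 + (ε / K)⁻¹) * z ^ (ε / K) := by
    rw [add_mul, one_mul]
    rw [div_eq_inv_mul] at h1
    linarith
  have h4 : 0 ≤ 1 + Real.log z := by
    have := Real.log_nonneg hz
    linarith
  calc (1 + Real.log z) ^ K ≤ ((1 + (ε / K)⁻¹) * z ^ (ε / K)) ^ K := pow_le_pow_left₀ h4 h3 K
    _ = (1 + (ε / K)⁻¹) ^ K * z ^ ε := by
      rw [mul_pow, ← Real.rpow_natCast (z ^ (ε / K)), ← Real.rpow_mul hz0.le,
        div_mul_cancel₀ _ hK'.ne']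

theorem pf_CRD (hL : T_LT4) : T_CRD := by
  intro m hm1 ε hε
  obtain ⟨c, C, K, hc, hC, H⟩ := hL m hm1 (ε / 2) (half_pos hε)
  obtain ⟨C1, hC1, hlog⟩ := log_pow_le K (half_pos hε)
  refine ⟨c, C * C1 * 2 ^ m, hc, by positivity, ?_⟩
  intro N _ T D hS ι _ _ F lam P hF hO δ hδ hδ' hP
  have hN : (1 : ℝ) ≤ N := by exact_mod_cast NeZero.one_le
  have hN0 : (0 : ℝ) < N := by linarith
  have hδi : 0 < δ⁻¹ := inv_pos.2 hδ
  have hδ2 : (2 : ℝ) ≤ δ⁻¹ := by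
    rw [le_inv_comm₀ (by norm_num) hδ]
    linarith
  let a : ℕ → ℂ := fun n => if n = 1 then 1 else 0
  have ha : Coe 1 a := by
    constructor
    · intro n
      show ‖(if n = 1 then (1 : ℂ) else 0)‖ ≤ 1
      split_ifs <;> simp
    · intro n hn
      have : n = 1 := by
        by_contra h
        exact hn (if_neg h)
      subst this
      norm_num
  have h1 := H N T D hS ι F lam P hF hO δ hδ hδ' hP 1 a le_rfl ha
  have hlam : ∀ i, lam i 1 = 1 := by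
    intro i
    obtain ⟨g, x, hg, hx⟩ := nz_of hm1 hS.dom (by simpa using hO.2 i i)
    exact lam_one hS.reps (hF i).1.toHecA hg hx
  have hDP : ∀ i t, DP m (lam i) a 1 t = 1 := by
    intro i t
    unfold DP tl
    rw [Nat.floor_one, Finset.Icc_self, Finset.sum_singleton, hlam i]
    simp [a]
  have h2 : ∀ i, ∫⁻ t in Set.Icc (-δ⁻¹) δ⁻¹, ENNReal.ofReal (‖DP m (lam i) a 1 t‖ ^ 4) =
      ENNReal.ofReal (2 * δ⁻¹) := by
    intro i
    simp only [hDP, norm_one, one_pow, ENNReal.ofReal_one]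
    rw [setLIntegral_one, Real.volume_Icc]
    congr 1
    ring
  rw [Finset.sum_congr rfl fun i _ => h2 i, Finset.sum_const, Finset.card_univ, nsmul_eq_mul,
    ← ENNReal.ofReal_natCast, ← ENNReal.ofReal_mul (by positivity)] at h1
  have hz1 : 1 ≤ (N : ℝ) * δ⁻¹ := by nlinarith
  have hB : 0 ≤ C * δ⁻¹ ^ (m ^ 2) * (N : ℝ) ^ ((m : ℝ) + ε / 2) *
        (1 + Real.log (1 * N * δ⁻¹)) ^ K * 1 ^ (2 * m) * (1 + δ ^ m * 1 ^ 2 / N) ^ m := by
    have h5 : 0 ≤ 1 + Real.log (1 * N * δ⁻¹) := by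
      have := Real.log_nonneg (show (1 : ℝ) ≤ 1 * N * δ⁻¹ by rw [one_mul]; exact hz1)
      linarith
    positivity
  have h3 := (ENNReal.ofReal_le_ofReal_iff hB).1 h1
  have h4 : (Fintype.card ι : ℝ) * δ⁻¹ ≤ (Fintype.card ι : ℝ) * (2 * δ⁻¹) := by
    have h5 : (0 : ℝ) ≤ (Fintype.card ι : ℝ) := Nat.cast_nonneg _
    nlinarith [mul_nonneg h5 hδi.le]
  refine h4.trans (h3.trans ?_)
  have h5 : (1 + Real.log (1 * N * δ⁻¹)) ^ K ≤ C1 * ((N : ℝ) * δ⁻¹) ^ (ε / 2) := by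
    rw [one_mul]
    exact hlog _ hz1
  have h6 : (1 + δ ^ m * 1 ^ 2 / N) ^ m ≤ (2 : ℝ) ^ m := by
    refine pow_le_pow_left₀ (by positivity) ?_ m
    have h7 : δ ^ m ≤ 1 := pow_le_one₀ hδ.le (by linarith)
    have h8 : δ ^ m * 1 ^ 2 / N ≤ 1 := by
      rw [div_le_one hN0]
      linarith
    linarith
  have h7 : (N : ℝ) ^ ((m : ℝ) + ε / 2) ≤ (N : ℝ) ^ m * ((N : ℝ) * δ⁻¹) ^ (ε / 2) := by
    rw [Real.rpow_add hN0, Real.rpow_natCast]
    refine mul_le_mul_of_nonneg_left ?_ (by positivity)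
    refine Real.rpow_le_rpow hN0.le ?_ (half_pos hε).le
    nlinarith
  have hE : ((N : ℝ) * δ⁻¹) ^ (ε / 2) * ((N : ℝ) * δ⁻¹) ^ (ε / 2) = ((N : ℝ) * δ⁻¹) ^ ε := by
    rw [← Real.rpow_add (by linarith), add_halves]
  have h8 : 0 ≤ 1 + Real.log (1 * N * δ⁻¹) := by
    have := Real.log_nonneg (show (1 : ℝ) ≤ 1 * N * δ⁻¹ by rw [one_mul]; exact hz1)
    linarith
  calc C * δ⁻¹ ^ (m ^ 2) * (N : ℝ) ^ ((m : ℝ) + ε / 2) *
        (1 + Real.log (1 * N * δ⁻¹)) ^ K * 1 ^ (2 * m) * (1 + δ ^ m * 1 ^ 2 / N) ^ m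
      ≤ C * δ⁻¹ ^ (m ^ 2) * ((N : ℝ) ^ m * ((N : ℝ) * δ⁻¹) ^ (ε / 2)) *
        (C1 * ((N : ℝ) * δ⁻¹) ^ (ε / 2)) * 1 ^ (2 * m) * 2 ^ m := by
        gcongr
    _ = C * C1 * 2 ^ m * (((N : ℝ) * δ⁻¹) ^ (ε / 2) * ((N : ℝ) * δ⁻¹) ^ (ε / 2)) *
        (N : ℝ) ^ m * δ⁻¹ ^ (m ^ 2) := by
        rw [one_pow]
        ring
    _ = _ := by rw [hE]

end Pool.Agent.H37.GHY
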